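import Mathlib

/-!
# Path-connectedness of the set of `p`-th roots of a nilpotent quaternionic matrix (MP_6980f8_al)

Matrices act on ROW vectors `v : Fin n → ℍ[ℝ]` by `v ᵥ* X` (left `ℍ`-linear; `v ᵥ* (X * Y) = (v ᵥ* X) ᵥ* Y`).
-/

namespace Pool.Agent.Q84.QR

open Matrix Quaternion

/-- quaternionic matrices -/
abbrev Mat (n : ℕ) := Matrix (Fin n) (Fin n) ℍ[ℝ]

/-- the set of the `p`-th roots of `A` -/
def Roots {n : ℕ} (A : Mat n) (p : ℕ) : Set (Mat n) := {X | X ^ p = A}

/-- `v` is a family of Jordan chains of the matrix `X`, the chain `g` of length `m g` (possibly `0`):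
`v g i` for `i < m g` form a basis of the row space, `v g i * X = v g (i + 1)`, and `v g i = 0` for `i ≥ m g`. -/
def JB {n : ℕ} (X : Mat n) (m : Fin n → ℕ) (v : Fin n → ℕ → (Fin n → ℍ[ℝ])) : Prop :=
  (∀ g i, v g i ᵥ* X = v g (i + 1)) ∧ (∀ g i, m g ≤ i → v g i = 0) ∧
  LinearIndependent ℍ[ℝ] (fun x : (Σ g : Fin n, Fin (m g)) => v x.1 x.2) ∧
  Submodule.span ℍ[ℝ] (Set.range fun x : (Σ g : Fin n, Fin (m g)) => v x.1 x.2) = ⊤

/-- elementary move on the chain lengths: two chains with lengths in the same window `[p k, p k + p]`;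
the first one grows by one, the second one loses one -/
def Move (p : ℕ) {n : ℕ} (m m' : Fin n → ℕ) : Prop :=
  ∃ (a b : Fin n) (k r s : ℕ), a ≠ b ∧ r < p ∧ s < p ∧ m a = p * k + r ∧ m b = p * k + s + 1 ∧
    m' = Function.update (Function.update m a (m a + 1)) b (m b - 1)

/-- at most one chain length strictly inside each window -/
def Normal (p : ℕ) {n : ℕ} (m : Fin n → ℕ) : Prop :=
  ∀ (a b : Fin n) (k r s : ℕ), 0 < r → r < p → 0 < s → s < p → m a = p * k + r → m b = p * k + s → a = b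

/-! ## Combinatorics -/

/-- (C1) Every `m` can be normalised by moves. (Increase the larger and decrease the smaller of two lengths
strictly inside a window: `∑ m g ^ 2` grows and `∑ m g` stays the same.) -/
def TaskNorm : Prop := ∀ (p n : ℕ) (m : Fin n → ℕ), 1 ≤ p →
  ∃ m' : Fin n → ℕ, Relation.ReflTransGen (Move p) m m' ∧ Normal p m'

/-- (C2) For normal `m` the numbers `∑ g, (m g - p j)` determine `m` up to permutation.
(`T_j - T_{j+1} = p #{g | m g ≥ p (j + 1)} + r_j`, `r_j < p` the remainder strictly inside the window `j`;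
so for all `t` the numbers `#{g | m g = t}` agree. Choose `σ` from equality of the fibre cardinalities.) -/
def TaskPerm : Prop := ∀ (p n : ℕ) (m m' : Fin n → ℕ), 1 ≤ p → Normal p m → Normal p m' →
  (∀ j, ∑ g, (m g - p * j) = ∑ g, (m' g - p * j)) → ∃ σ : Equiv.Perm (Fin n), m' = m ∘ σ

/-! ## Jordan form of nilpotent endomorphisms over a division ring -/

/-- chains of the endomorphism `N` indexed by a finite type `ι`, of lengths `m i`, forming a basis -/
def Chains {D V : Type} [DivisionRing D] [AddCommGroup V] [Module D V] (N : V →ₗ[D] V) (ι : Type)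
    (m : ι → ℕ) (v : ι → ℕ → V) : Prop :=
  (∀ g i, N (v g i) = v g (i + 1)) ∧ (∀ g i, m g ≤ i → v g i = 0) ∧
  LinearIndependent D (fun x : (Σ g : ι, Fin (m g)) => v x.1 x.2) ∧
  Submodule.span D (Set.range fun x : (Σ g : ι, Fin (m g)) => v x.1 x.2) = ⊤

/-- (J1) linear independence criterion: chains with positive lengths whose last vectors are linearly
independent are linearly independent (apply powers of `N` to a relation, induction on the largest
distance from the end of the chain). -/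
def TaskChainLI : Prop := ∀ (D V : Type) [DivisionRing D] [AddCommGroup V] [Module D V]
  (N : V →ₗ[D] V) (ι : Type) [Fintype ι] (m : ι → ℕ) (v : ι → ℕ → V), (∀ g, 0 < m g) →
  (∀ g i, N (v g i) = v g (i + 1)) → (∀ g i, m g ≤ i → v g i = 0) →
  LinearIndependent D (fun g : ι => v g (m g - 1)) →
  LinearIndependent D (fun x : (Σ g : ι, Fin (m g)) => v x.1 x.2)

/-- (J2) **Jordan form**: every nilpotent endomorphism of a finite-dimensional space over a division
ring has a basis of chains of positive lengths. (Strong induction on `finrank D V`: take chains `v g i`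
of `N` restricted to `W = range N`; choose `u g` with `N (u g) = v g 0` and prolong each chain by `u g`
at the beginning; complete the last vectors of the chains to a basis of `ker N` by vectors `w j`, chains
of length one. Linear independence by (J1); spanning: the span contains `range N`... use
`N x ∈ W = span`, so `N x = N y` with `y` in the span, `x - y ∈ ker N ⊆ span`.) -/
def TaskJordan : Prop := TaskChainLI → ∀ (D V : Type) [DivisionRing D] [AddCommGroup V] [Module D V]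
  [FiniteDimensional D V] (N : V →ₗ[D] V), (∃ k, N ^ k = 0) →
  ∃ (ι : Type) (_ : Fintype ι) (m : ι → ℕ) (v : ι → ℕ → V), (∀ g, 0 < m g) ∧ Chains N ι m v

/-- the conclusion of `TaskJordan` -/
def JordanStmt : Prop := ∀ (D V : Type) [DivisionRing D] [AddCommGroup V] [Module D V]
  [FiniteDimensional D V] (N : V →ₗ[D] V), (∃ k, N ^ k = 0) →
  ∃ (ι : Type) (_ : Fintype ι) (m : ι → ℕ) (v : ι → ℕ → V), (∀ g, 0 < m g) ∧ Chains N ι m v

/-- (J3) nilpotent matrices have Jordan chains in the sense of `JB`, padded by chains of length `0`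
(number of chains `≤ ∑ m g = n`; choose an embedding `ι → Fin n`). -/
def TaskJB : Prop := JordanStmt → ∀ (n : ℕ) (X : Mat n), (∃ k, X ^ k = 0) → ∃ m v, JB X m v

/-- (J4) ranks: the range of `v ↦ v * X ^ i` has the basis `v g j`, `i ≤ j < m g`. -/
def TaskRank : Prop := ∀ (n : ℕ) (X : Mat n) (m : Fin n → ℕ) (v : Fin n → ℕ → (Fin n → ℍ[ℝ])),
  JB X m v → ∀ i, Module.finrank ℍ[ℝ] (LinearMap.range (X ^ i).vecMulLinear) = ∑ g, (m g - i)

/-- (J5) same chain lengths up to permutation: the matrices are conjugate. (`T` maps the basis of `X`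
to that of `Y`.) -/
def TaskConj : Prop := ∀ (n : ℕ) (X Y : Mat n) (m m' : Fin n → ℕ) (v v' : Fin n → ℕ → (Fin n → ℍ[ℝ]))
  (σ : Equiv.Perm (Fin n)), JB X m v → JB Y m' v' → m' = m ∘ σ → ∃ T : Mat n, IsUnit T ∧ T * Y = X * T

/-- (J6) on a space with a nilpotent `N` there is a complex structure commuting with `N`: on a basis of
chains `v g i ↦ i • v g i` (the quaternion `i = ⟨0,1,0,0⟩`; left linear maps). -/
def TaskI : Prop := JordanStmt → ∀ (V : Type) [AddCommGroup V] [Module ℍ[ℝ] V]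
  [FiniteDimensional ℍ[ℝ] V] (N : V →ₗ[ℍ[ℝ]] V), (∃ k, N ^ k = 0) →
  ∃ J : V →ₗ[ℍ[ℝ]] V, J ∘ₗ J = -LinearMap.id ∧ J ∘ₗ N = N ∘ₗ J

/-- conclusion of `TaskI` -/
def IStmt : Prop := ∀ (V : Type) [AddCommGroup V] [Module ℍ[ℝ] V]
  [FiniteDimensional ℍ[ℝ] V] (N : V →ₗ[ℍ[ℝ]] V), (∃ k, N ^ k = 0) →
  ∃ J : V →ₗ[ℍ[ℝ]] V, J ∘ₗ J = -LinearMap.id ∧ J ∘ₗ N = N ∘ₗ J

/-- (J7) the same below an idempotent `e` commuting with the nilpotent matrix `A`: apply `IStmt` to the
range `{x | x * e = x}` of `e` and extend by `0` (`x ↦ ι (J (x * e))`; every left `ℍ`-linear map of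
`Fin n → ℍ` is `x ↦ x * M`, see `Matrix.toLinearMapRight'`). -/
def TaskJJ : Prop := IStmt → ∀ (n : ℕ) (A e : Mat n), (∃ k, A ^ k = 0) → e * e = e → e * A = A * e →
  ∃ J : Mat n, e * J = J ∧ J * e = J ∧ J * J = -e ∧ J * A = A * J

/-! ## Paths in the centraliser -/

/-- (P1) Let `g` be invertible. There is an idempotent `e` (a real polynomial in `g`: the projector to the
part with negative real eigenvalues) which commutes with everything that commutes with `g`, and
`(1 - t) (1 - 2 e) + t g` is invertible for `0 ≤ t ≤ 1`. (Split the minimal polynomial of `g` over `ℝ` as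
`a * b`, `a` a product of factors `X - λ`, `λ < 0`, and `b` without negative real roots; Bezout.) -/
def TaskSplit : Prop := ∀ (n : ℕ) (g : Mat n), IsUnit g → ∃ e : Mat n, e * e = e ∧
  (∀ B : Mat n, g * B = B * g → e * B = B * e) ∧
  ∀ t : ℝ, 0 ≤ t → t ≤ 1 → IsUnit ((1 - t) • (1 - (2 : ℝ) • e) + t • g)

/-- (P2) conjugation by a continuous path of invertible matrices commuting with `A`. (Use a normed ring
structure, e.g. `Matrix.linftyOpNormedRing`, for the continuity of the inverse.) -/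
def TaskConjPath : Prop := ∀ (n p : ℕ) (A X : Mat n) (γ : ℝ → Mat n), Continuous γ → X ^ p = A →
  (∀ t, 0 ≤ t → t ≤ 1 → IsUnit (γ t) ∧ γ t * A = A * γ t) →
  JoinedIn (Roots A p) (Ring.inverse (γ 0) * X * γ 0) (Ring.inverse (γ 1) * X * γ 1)

/-- (P3) two roots conjugate by an invertible matrix are joined (path from `g` to `1 - 2 e` by P1 and from
`1 - 2 e = (1 - e) - e` to `1` by `(1 - e) + cos θ e + sin θ J`, inverse `(1 - e) + cos θ e - sin θ J`). -/
def TaskCentr : Prop := TaskSplit → TaskConjPath →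
  (∀ (n : ℕ) (A e : Mat n), (∃ k, A ^ k = 0) → e * e = e → e * A = A * e →
    ∃ J : Mat n, e * J = J ∧ J * e = J ∧ J * J = -e ∧ J * A = A * J) →
  ∀ (n p : ℕ) (A X Y T : Mat n), (∃ k, A ^ k = 0) → X ^ p = A → Y ^ p = A → IsUnit T → T * Y = X * T →
    JoinedIn (Roots A p) X Y

/-! ## The move -/

/-- the rotated chains: positions `≡ r` of the chain `a` and `≡ s` of the chain `b` are mixed by the
rotation `(c, d)` -/
noncomputable def E {n : ℕ} (p r s : ℕ) (c d : ℝ) (v : Fin n → ℕ → (Fin n → ℍ[ℝ])) (a b : Fin n) (i : ℕ) :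
    Fin n → ℍ[ℝ] := if i % p = r then c • v a i + d • v b (i - r + s) else v a i

/-- see `E` -/
noncomputable def F {n : ℕ} (p r s : ℕ) (c d : ℝ) (v : Fin n → ℕ → (Fin n → ℍ[ℝ])) (a b : Fin n) (i : ℕ) :
    Fin n → ℍ[ℝ] := if i % p = s then (-d) • v a (i - s + r) + c • v b i else v b i

/-- (M1) the matrices `Z = M₀ + c M₁ + d M₂`. They are defined on the basis: other chains as before,
`v a i ↦ E (i + 1)` for `i % p ≠ r`, `v b i ↦ F (i + 1)` for `i % p ≠ s`, and for `i = r + j p`: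
`v a i ↦ c v a (i + 1) - d v b (i - r + s + 1)`, for `i = s + j p`: `v b i ↦ d v a (i - s + r + 1) + c v b (i + 1)`
(these vectors are not mixed ones since `p ≥ 2`; vectors beyond the ends of the chains are `0`). -/
def TaskMoveMat : Prop := ∀ (n p k r s : ℕ) (X : Mat n) (m : Fin n → ℕ)
  (v : Fin n → ℕ → (Fin n → ℍ[ℝ])) (a b : Fin n), 2 ≤ p → a ≠ b → r < p → s < p →
  m a = p * k + r → m b = p * k + s + 1 → JB X m v →
  ∃ M₀ M₁ M₂ : Mat n, ∀ c d : ℝ, c ^ 2 + d ^ 2 = 1 →
    (∀ g i, g ≠ a → g ≠ b → v g i ᵥ* (M₀ + c • M₁ + d • M₂) = v g (i + 1)) ∧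
    (∀ i, E p r s c d v a b i ᵥ* (M₀ + c • M₁ + d • M₂) = E p r s c d v a b (i + 1)) ∧
    (∀ i, F p r s c d v a b i ᵥ* (M₀ + c • M₁ + d • M₂) = F p r s c d v a b (i + 1))

/-- (M2) such matrices have the `p`-th power `X ^ p`. (`Z ^ p` maps `E i` to `E (i + p)`, `F i` to
`F (i + p)`; check on the basis, `v a i = c E i - d F (i - r + s)` for `i % p = r`, etc.) -/
def TaskMovePow : Prop := ∀ (n p k r s : ℕ) (X Z : Mat n) (m : Fin n → ℕ)
  (v : Fin n → ℕ → (Fin n → ℍ[ℝ])) (a b : Fin n) (c d : ℝ), 2 ≤ p → a ≠ b → r < p → s < p →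
  m a = p * k + r → m b = p * k + s + 1 → JB X m v → c ^ 2 + d ^ 2 = 1 →
  (∀ g i, g ≠ a → g ≠ b → v g i ᵥ* Z = v g (i + 1)) →
  (∀ i, E p r s c d v a b i ᵥ* Z = E p r s c d v a b (i + 1)) →
  (∀ i, F p r s c d v a b i ᵥ* Z = F p r s c d v a b (i + 1)) → Z ^ p = X ^ p

/-- (M3) at `c = 1`, `d = 0` the matrix is `X`. -/
def TaskMoveStart : Prop := ∀ (n p r s : ℕ) (X Z : Mat n) (m : Fin n → ℕ)
  (v : Fin n → ℕ → (Fin n → ℍ[ℝ])) (a b : Fin n), JB X m v →
  (∀ g i, g ≠ a → g ≠ b → v g i ᵥ* Z = v g (i + 1)) →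
  (∀ i, E p r s 1 0 v a b i ᵥ* Z = E p r s 1 0 v a b (i + 1)) →
  (∀ i, F p r s 1 0 v a b i ᵥ* Z = F p r s 1 0 v a b (i + 1)) → Z = X

/-- (M4) at `c = 0`, `d = 1` the matrix has the new chain lengths, with the chains
`E 0, E 1, …` (length `m a + 1`) and `F 0, F 1, …` (length `m b - 1`). The new basis is a permutation
of the old one up to signs. -/
def TaskMoveEnd : Prop := ∀ (n p k r s : ℕ) (X Z : Mat n) (m : Fin n → ℕ)
  (v : Fin n → ℕ → (Fin n → ℍ[ℝ])) (a b : Fin n), 2 ≤ p → a ≠ b → r < p → s < p →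
  m a = p * k + r → m b = p * k + s + 1 → JB X m v →
  (∀ g i, g ≠ a → g ≠ b → v g i ᵥ* Z = v g (i + 1)) →
  (∀ i, E p r s 0 1 v a b i ᵥ* Z = E p r s 0 1 v a b (i + 1)) →
  (∀ i, F p r s 0 1 v a b i ᵥ* Z = F p r s 0 1 v a b (i + 1)) →
  ∃ v', JB Z (Function.update (Function.update m a (m a + 1)) b (m b - 1)) v'

/-- (M5) assembly of the move: the path `θ ↦ M₀ + cos θ M₁ + sin θ M₂`, `0 ≤ θ ≤ π / 2`. -/
def TaskMove : Prop := TaskMoveMat → TaskMovePow → TaskMoveStart → TaskMoveEnd →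
  ∀ (n p : ℕ) (X : Mat n) (m m' : Fin n → ℕ) (v : Fin n → ℕ → (Fin n → ℍ[ℝ])), 2 ≤ p →
    JB X m v → Move p m m' → ∃ (Y : Mat n) (v' : Fin n → ℕ → (Fin n → ℍ[ℝ])),
      JoinedIn (Roots (X ^ p) p) X Y ∧ JB Y m' v'

end Pool.Agent.Q84.QR
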