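import Pool.Agent.Q84.QR.Stmts

/-! `TaskCentr` of the blueprint for MP_6980f8_al (helper170). -/

namespace Pool.Agent.Q84.QR.TaskCentr
open Pool.Agent.Q84.QR Matrix Quaternion

private theorem rot_mul {n : ℕ} (e J : Mat n) (he : e * e = e) (h1 : e * J = J) (h2 : J * e = J)
    (h3 : J * J = -e) (c s : ℝ) (hcs : c * c + s * s = 1) :
    ((1 - e) + c • e + s • J) * ((1 - e) + c • e + (-s) • J) = 1 := by
  have h4 : (c * c) • e + (s * s) • e = e := by
    rw [← add_smul, hcs, one_smul]
  have h5 : ((1 - e) + c • e + s • J) * ((1 - e) + c • e + (-s) • J)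
      = 1 - e + ((c * c) • e + (s * s) • e) := by
    simp only [add_mul, sub_mul, mul_add, mul_sub, one_mul, mul_one, smul_mul_assoc,
      mul_smul_comm, he, h1, h2, h3]
    module
  rw [h5, h4]
  abel

private theorem rot_unit {n : ℕ} (e J : Mat n) (he : e * e = e) (h1 : e * J = J) (h2 : J * e = J)
    (h3 : J * J = -e) (c s : ℝ) (hcs : c * c + s * s = 1) :
    IsUnit ((1 - e) + c • e + s • J) := by
  have a1 := rot_mul e J he h1 h2 h3 c s hcs
  have a2 := rot_mul e J he h1 h2 h3 c (-s) (by rw [neg_mul_neg]; exact hcs)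
  rw [neg_neg] at a2
  exact ⟨⟨_, _, a1, a2⟩, rfl⟩

theorem main : Pool.Agent.Q84.QR.TaskCentr := by
  intro hS hP hJ n p A X Y T hA hX hY hT hTY
  have hTk : ∀ k : ℕ, T * Y ^ k = X ^ k * T := by
    intro k
    induction k with
    | zero => simp
    | succ k ih => rw [pow_succ, ← mul_assoc, ih, mul_assoc, hTY, ← mul_assoc, ← pow_succ]
  have hTA : T * A = A * T := by
    have h := hTk p
    rw [hX, hY] at h
    exact h
  obtain ⟨e, he, hecomm, hunit⟩ := hS n T hT
  have heA : e * A = A * e := hecomm A hTA
  obtain ⟨J, h1, h2, h3, hJA⟩ := hJ n A e hA he heA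
  -- first path
  have p1 := hP n p A X (fun t => (1 - t) • (1 - (2 : ℝ) • e) + t • T)
    (((continuous_const.sub continuous_id).smul continuous_const).add
      (continuous_id.smul continuous_const)) hX
    (fun t h0 h1 => ⟨hunit t h0 h1, by
      simp only [add_mul, mul_add, sub_mul, mul_sub, smul_mul_assoc, mul_smul_comm, one_mul,
        mul_one, heA, hTA]⟩)
  -- second path
  have p2 := hP n p A X
    (fun t => (1 - e) + Real.cos (Real.pi * t) • e + Real.sin (Real.pi * t) • J)
    ((continuous_const.add ((Real.continuous_cos.comp (continuous_const.mul continuous_id)).smul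
      continuous_const)).add ((Real.continuous_sin.comp (continuous_const.mul
      continuous_id)).smul continuous_const)) hX
    (fun t _ _ => ⟨rot_unit e J he h1 h2 h3 _ _ (by
        have := Real.cos_sq_add_sin_sq (Real.pi * t)
        nlinarith), by
      simp only [add_mul, mul_add, sub_mul, mul_sub, smul_mul_assoc, mul_smul_comm, one_mul,
        mul_one, heA, hJA]⟩)
  simp only [sub_zero, one_smul, zero_smul, add_zero, sub_self, zero_add, mul_zero, Real.cos_zero,
    Real.sin_zero, mul_one, Real.cos_pi, Real.sin_pi] at p1 p2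
  have e1 : Ring.inverse (1 - e + e) * X * (1 - e + e) = X := by
    rw [sub_add_cancel, Ring.inverse_one, one_mul, mul_one]
  have e2 : (1 : Mat n) - e + (-1 : ℝ) • e = 1 - (2 : ℝ) • e := by module
  have e3 : Ring.inverse T * X * T = Y := by
    rw [mul_assoc, ← hTY, ← mul_assoc, Ring.inverse_mul_cancel T hT, one_mul]
  rw [e3] at p1
  rw [e1, e2] at p2
  exact p2.trans p1

end Pool.Agent.Q84.QR.TaskCentr
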