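import Pool.Agent.Q84.QR.Stmts

set_option autoImplicit false

namespace Pool.Agent.Q84.QR.TaskChainLI

open Pool.Agent.Q84.QR

private theorem pow_apply {D V : Type} [DivisionRing D] [AddCommGroup V] [Module D V]
    (N : V →ₗ[D] V) (ι : Type) (v : ι → ℕ → V) (h : ∀ g i, N (v g i) = v g (i + 1)) (k : ℕ)
    (g : ι) (i : ℕ) : (N ^ k) (v g i) = v g (i + k) := by
  induction k generalizing i with
  | zero => simp
  | succ k ih =>
    rw [pow_succ, Module.End.mul_apply, h, ih]
    congr 1
    ring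

theorem main : Pool.Agent.Q84.QR.TaskChainLI := by
  classical
  intro D V _ _ _ N ι _ m v hm hN h0 hLI
  rw [Fintype.linearIndependent_iff] at hLI ⊢
  intro c hc
  by_contra hne
  push Not at hne
  obtain ⟨x1, hx1⟩ := hne
  obtain ⟨x0, hx0, hmax⟩ := Finset.exists_max_image
    (Finset.univ.filter fun x : (Σ g : ι, Fin (m g)) => c x ≠ 0)
    (fun x => m x.1 - 1 - (x.2 : ℕ)) ⟨x1, by simp [hx1]⟩
  set k := m x0.1 - 1 - (x0.2 : ℕ) with hk
  have hx0' : c x0 ≠ 0 := (Finset.mem_filter.1 hx0).2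
  have h1 : ∑ x : (Σ g : ι, Fin (m g)), c x • v x.1 ((x.2 : ℕ) + k) = 0 := by
    have := congrArg (N ^ k) hc
    rw [map_sum, map_zero] at this
    rw [← this]
    refine Finset.sum_congr rfl fun x _ => ?_
    rw [map_smul, pow_apply N ι v hN]
  have h2 : ∀ x : (Σ g : ι, Fin (m g)), c x • v x.1 ((x.2 : ℕ) + k) =
      (if m x.1 - 1 - (x.2 : ℕ) = k then c x else 0) • v x.1 (m x.1 - 1) := by
    intro x
    have hlt := x.2.2
    by_cases hx : m x.1 - 1 - (x.2 : ℕ) = k
    · rw [if_pos hx]
      congr 2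
      omega
    · rw [if_neg hx, zero_smul]
      rcases lt_or_gt_of_ne hx with h | h
      · rw [h0 x.1 _ (by omega), smul_zero]
      · have : c x = 0 := by
          by_contra hcx
          have := hmax x (Finset.mem_filter.2 ⟨Finset.mem_univ _, hcx⟩)
          omega
        rw [this, zero_smul]
  rw [Finset.sum_congr rfl fun x _ => h2 x, Fintype.sum_sigma] at h1
  have h3 : ∑ g, (∑ i : Fin (m g), (if m g - 1 - (i : ℕ) = k then c ⟨g, i⟩ else 0)) •
      v g (m g - 1) = 0 := by
    rw [← h1]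
    refine Finset.sum_congr rfl fun g _ => ?_
    rw [Finset.sum_smul]
  have h4 := hLI _ h3 x0.1
  rw [Finset.sum_eq_single x0.2] at h4
  · rw [if_pos hk.symm] at h4
    exact hx0' h4
  · intro i _ hi
    refine if_neg fun h => hi ?_
    have := i.2
    have := x0.2.2
    apply Fin.ext
    omega
  · intro h
    exact absurd (Finset.mem_univ _) h

end Pool.Agent.Q84.QR.TaskChainLI
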