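import Pool.Agent.Q84.QR.Stmts

set_option autoImplicit false

open Matrix Quaternion

namespace Pool.Agent.Q84.QR.TaskConjPath

open Pool.Agent.Q84.QR

section
attribute [local instance] Matrix.linftyOpNormedRing Matrix.linftyOpNormedAlgebra

private theorem cont_inv {n : ℕ} (γ : ℝ → Mat n) (hγ : Continuous γ) (t : ℝ) (ht : IsUnit (γ t)) :
    ContinuousAt (fun s => Ring.inverse (γ s)) t := by
  have : CompleteSpace (Mat n) := FiniteDimensional.complete ℝ (Mat n)
  obtain ⟨u, hu⟩ := ht
  have h := NormedRing.inverse_continuousAt u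
  rw [hu] at h
  exact ContinuousAt.comp (f := γ) (g := Ring.inverse) h hγ.continuousAt

end

theorem main : Pool.Agent.Q84.QR.TaskConjPath := by
  intro n p A X γ hγ hX hu
  let f : unitInterval → Mat n := fun t => Ring.inverse (γ t) * X * γ t
  have hc : Continuous f := by
    rw [continuous_iff_continuousAt]
    intro t
    have h1 : ContinuousAt (fun s : unitInterval => Ring.inverse (γ s)) t :=
      ContinuousAt.comp (f := fun s : unitInterval => (s : ℝ)) (g := fun s => Ring.inverse (γ s))
        (cont_inv γ hγ t (hu t t.2.1 t.2.2).1) continuous_subtype_val.continuousAt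
    have h2 : ContinuousAt (fun s : unitInterval => γ s) t :=
      (hγ.comp continuous_subtype_val).continuousAt
    exact (h1.mul continuousAt_const).mul h2
  refine ⟨⟨⟨f, hc⟩, ?_, ?_⟩, ?_⟩
  · simp [f]
  · simp [f]
  · intro t
    change (Ring.inverse (γ t) * X * γ t) ^ p = A
    obtain ⟨⟨u, hu1⟩, hu2⟩ := hu t t.2.1 t.2.2
    rw [← hu1] at hu2 ⊢
    rw [Ring.inverse_unit, Units.conj_pow', hX, mul_assoc, ← hu2, ← mul_assoc, Units.inv_mul, one_mul]

end Pool.Agent.Q84.QR.TaskConjPath
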