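import Mathlib
import Pool.Agent.Q84.QR.Stmts

set_option autoImplicit false

namespace Pool.Agent.Q84.QR.TaskJB

open Matrix Quaternion

theorem pow_apply {n : ℕ} (X : Mat n) (j : ℕ) (w : Fin n → ℍ[ℝ]) :
    (X.vecMulLinear ^ j) w = w ᵥ* X ^ j := by
  induction j with
  | zero => simp
  | succ j ih =>
    rw [pow_succ', Module.End.mul_apply, ih, pow_succ X, ← vecMul_vecMul]
    rfl

theorem main : Pool.Agent.Q84.QR.TaskJB := by
  intro hJ n X hX
  classical
  obtain ⟨k, hk⟩ := hX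
  obtain ⟨ι, hι, m, v, hpos, h1, h2, h3, h4⟩ := hJ ℍ[ℝ] (Fin n → ℍ[ℝ]) X.vecMulLinear ⟨k, by
    refine LinearMap.ext fun w => ?_
    rw [pow_apply, hk]
    simp⟩
  -- the number of chains
  have hcard : Fintype.card ι ≤ n := by
    have b := Module.Basis.mk h3 h4.ge
    have e1 := Module.finrank_eq_card_basis b
    rw [Module.finrank_fin_fun, Fintype.card_sigma] at e1
    rw [e1, Fintype.card_eq_sum_ones]
    refine Finset.sum_le_sum fun g _ => ?_
    rw [Fintype.card_fin]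
    exact hpos g
  obtain ⟨e⟩ : Nonempty (ι ↪ Fin n) := Function.Embedding.nonempty_of_card_le (by rwa [Fintype.card_fin])
  have hm : ∀ g, Function.extend e m 0 (e g) = m g := fun g => e.injective.extend_apply _ _ _
  have hv : ∀ g, Function.extend e v 0 (e g) = v g := fun g => e.injective.extend_apply _ _ _
  have hm0 : ∀ j, (¬ ∃ g, e g = j) → Function.extend e m 0 j = 0 := fun j hj => by
    rw [Function.extend_apply' _ _ _ hj]; rfl
  have hv0 : ∀ j, (¬ ∃ g, e g = j) → Function.extend e v 0 j = 0 := fun j hj => by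
    rw [Function.extend_apply' _ _ _ hj]; rfl
  obtain ⟨m', hm'⟩ : ∃ m' : Fin n → ℕ, m' = Function.extend e m 0 := ⟨_, rfl⟩
  obtain ⟨v', hv'⟩ : ∃ v' : Fin n → ℕ → (Fin n → ℍ[ℝ]), v' = Function.extend e v 0 := ⟨_, rfl⟩
  rw [← hm'] at hm hm0
  rw [← hv'] at hv hv0
  let φ : (Σ g : ι, Fin (m g)) → (Σ g : Fin n, Fin (m' g)) := fun x => ⟨e x.1, ⟨x.2, by rw [hm]; exact x.2.2⟩⟩
  have hinj : Function.Injective φ := by
    rintro ⟨g, i⟩ ⟨g', i'⟩ h
    have hg : e g = e g' := congrArg Sigma.fst h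
    have hg' : g = g' := e.injective hg
    subst hg'
    have h5 := (Sigma.mk.inj_iff.1 h).2
    have h6 := eq_of_heq h5
    have h7 : (i : ℕ) = i' := by simpa using h6
    rw [Fin.ext h7]
  have hsurj : Function.Surjective φ := by
    rintro ⟨j, i⟩
    by_cases hj : ∃ g, e g = j
    · obtain ⟨g, rfl⟩ := hj
      refine ⟨⟨g, ⟨i, by rw [← hm]; exact i.2⟩⟩, rfl⟩
    · have h5 := i.2
      have h6 := hm0 j hj
      omega
  have hcomp : (fun x : (Σ g : Fin n, Fin (m' g)) => v' x.1 x.2) ∘ φ = fun x : (Σ g : ι, Fin (m g)) => v x.1 x.2 := by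
    funext x
    show v' (e x.1) _ = _
    rw [hv]
  refine ⟨m', v', ?_, ?_, ?_, ?_⟩
  · intro j i
    by_cases hj : ∃ g, e g = j
    · obtain ⟨g, rfl⟩ := hj
      rw [hv]
      exact h1 g i
    · rw [hv0 j hj]
      simp
  · intro j i hji
    by_cases hj : ∃ g, e g = j
    · obtain ⟨g, rfl⟩ := hj
      rw [hv]
      rw [hm] at hji
      exact h2 g i hji
    · rw [hv0 j hj]
      rfl
  · have h5 := linearIndependent_equiv (R := ℍ[ℝ]) (Equiv.ofBijective φ ⟨hinj, hsurj⟩)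
      (f := fun x : (Σ g : Fin n, Fin (m' g)) => v' x.1 x.2)
    rw [← h5]
    show LinearIndependent ℍ[ℝ] ((fun x : (Σ g : Fin n, Fin (m' g)) => v' x.1 x.2) ∘ φ)
    rw [hcomp]
    exact h3
  · rw [← hsurj.range_comp, hcomp]
    exact h4

end Pool.Agent.Q84.QR.TaskJB
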