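import Pool.Agent.Q84.QR.Stmts

set_option autoImplicit false

namespace Pool.Agent.Q84.QR.TaskSplit

open Matrix Quaternion Polynomial

lemma cop1 (r : ℝ) (f : ℝ[X]) (h : f.eval r ≠ 0) : IsCoprime (X - C r) f :=
  (Polynomial.irreducible_X_sub_C r).coprime_iff_not_dvd.2 (fun hd => h (Polynomial.dvd_iff_isRoot.1 hd))

lemma cop (s : Multiset ℝ) (f : ℝ[X]) (h : ∀ r ∈ s, f.eval r ≠ 0) :
    IsCoprime (s.map fun r => X - C r).prod f := by
  induction s using Multiset.induction_on with
  | empty => simpa using isCoprime_one_left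
  | cons a s ih =>
    rw [Multiset.map_cons, Multiset.prod_cons]
    exact (cop1 a f (h a (Multiset.mem_cons_self a s))).mul_left
      (ih fun r hr => h r (Multiset.mem_cons_of_mem hr))

lemma eval_prod_ne (s : Multiset ℝ) (r : ℝ) (h : r ∉ s) :
    ((s.map fun x => X - C x).prod : ℝ[X]).eval r ≠ 0 := by
  induction s using Multiset.induction_on with
  | empty => simp
  | cons a s ih =>
    rw [Multiset.map_cons, Multiset.prod_cons, eval_mul]
    refine mul_ne_zero ?_ (ih fun hr => h (Multiset.mem_cons_of_mem hr))
    simp only [eval_sub, eval_X, eval_C]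
    intro h0
    apply h
    rw [Multiset.mem_cons]
    left; linarith

lemma eval_prod_eq (s : Multiset ℝ) (r : ℝ) (h : r ∈ s) :
    ((s.map fun x => X - C x).prod : ℝ[X]).eval r = 0 := by
  obtain ⟨t, rfl⟩ := Multiset.exists_cons_of_mem h
  rw [Multiset.map_cons, Multiset.prod_cons, eval_mul]
  simp

theorem split_poly (μ : ℝ[X]) (hμ : μ ≠ 0) : ∃ (s : Multiset ℝ) (b : ℝ[X]),
    μ = (s.map fun r => X - C r).prod * b ∧ (∀ r ∈ s, r < 0) ∧ ∀ r < 0, b.eval r ≠ 0 := by
  classical
  obtain ⟨q, hq, -, hq0⟩ := Polynomial.exists_prod_multiset_X_sub_C_mul μ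
  have hqne : q ≠ 0 := by
    rintro rfl
    rw [mul_zero] at hq
    exact hμ hq.symm
  refine ⟨μ.roots.filter (fun r => r < 0),
    ((μ.roots.filter (fun r => ¬ r < 0)).map fun r => X - C r).prod * q, ?_, ?_, ?_⟩
  · rw [← mul_assoc, ← Multiset.prod_add, ← Multiset.map_add, Multiset.filter_add_not, hq]
  · intro r hr
    exact (Multiset.mem_filter.1 hr).2
  · intro r hr
    rw [eval_mul]
    refine mul_ne_zero (eval_prod_ne _ _ ?_) ?_
    · intro h
      exact (Multiset.mem_filter.1 h).2 hr
    · intro h
      have : r ∈ q.roots := (mem_roots hqne).2 h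
      rw [hq0] at this
      exact absurd this (Multiset.notMem_zero r)

theorem main : Pool.Agent.Q84.QR.TaskSplit := by
  intro n g hg
  have hint : IsIntegral ℝ g := Algebra.IsIntegral.isIntegral g
  set μ : ℝ[X] := minpoly ℝ g with hμd
  have hμ : μ ≠ 0 := minpoly.ne_zero hint
  have hμ0 : μ.eval 0 ≠ 0 := by
    intro h0
    have hd : X ∣ μ := by
      have := Polynomial.dvd_iff_isRoot.2 (show IsRoot μ 0 from h0)
      simpa using this
    obtain ⟨h, hh⟩ := hd
    have h1 : aeval g μ = 0 := minpoly.aeval ℝ g
    rw [hh, map_mul, aeval_X] at h1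
    have h2 : aeval g h = 0 := by
      have := congrArg (fun z => (hg.unit⁻¹ : (Mat n)ˣ).1 * z) h1
      simpa [← mul_assoc] using this
    have h3 : μ ∣ h := minpoly.dvd ℝ g h2
    have hhne : h ≠ 0 := by
      rintro rfl
      rw [mul_zero] at hh
      exact hμ hh
    have h4 := Polynomial.natDegree_le_of_dvd h3 hhne
    have h5 : μ.natDegree = 1 + h.natDegree := by
      rw [hh, natDegree_mul X_ne_zero hhne, natDegree_X]
    omega
  obtain ⟨s, b, hab, hs, hb⟩ := split_poly μ hμ
  set a : ℝ[X] := (s.map fun r => X - C r).prod with ha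
  have hb0 : b.eval 0 ≠ 0 := by
    intro h0
    apply hμ0
    rw [hab, eval_mul, h0, mul_zero]
  have hcop : IsCoprime a b := cop s b fun r hr => hb r (hs r hr)
  obtain ⟨u, v, huv⟩ := hcop
  refine ⟨aeval g (v * b), ?_, ?_, ?_⟩
  · have h1 : aeval g (v * b * (v * b)) = aeval g (v * b) := by
      have h2 : v * b * (v * b) = v * b - u * v * μ := by
        have h3 : v * b = 1 - u * a := by rw [← huv]; ring
        calc v * b * (v * b) = v * b * (1 - u * a) := by rw [← h3]
          _ = v * b - u * v * μ := by rw [hab]; ring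
      have h5 : aeval g μ = 0 := minpoly.aeval ℝ g
      rw [h2, map_sub, map_mul (aeval g) (u * v) μ, h5, mul_zero, sub_zero]
    rw [map_mul (aeval g) (v * b) (v * b)] at h1
    exact h1
  · intro B hB
    have h1 : aeval g (v * b) ∈ Algebra.adjoin ℝ {g} := aeval_mem_adjoin_singleton ℝ g
    have h2 : Algebra.adjoin ℝ {g} ≤ Subalgebra.centralizer ℝ {B} := by
      apply Algebra.adjoin_le
      intro x hx
      rw [Set.mem_singleton_iff] at hx
      subst hx
      rw [SetLike.mem_coe, Subalgebra.mem_centralizer_iff]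
      intro y hy
      rw [Set.mem_singleton_iff] at hy
      subst hy
      exact hB.symm
    have h3 := (Subalgebra.mem_centralizer_iff ℝ).1 (h2 h1) B (Set.mem_singleton B)
    exact h3.symm
  · intro t ht0 ht1
    set f : ℝ[X] := C (1 - t) * (1 - C 2 * (v * b)) + C t * X with hf
    have hfa : IsCoprime a f := by
      apply cop
      intro r hr
      have hr0 := hs r hr
      have h1 : a.eval r = 0 := eval_prod_eq s r hr
      have h2 : (v * b).eval r = 1 := by
        have := congrArg (fun p : ℝ[X] => p.eval r) huv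
        simp only [eval_add, eval_mul, h1, mul_zero, zero_add, eval_one] at this
        rw [eval_mul]; exact this
      have h3 : f.eval r = -(1 - t) + t * r := by
        rw [hf]
        simp only [eval_add, eval_mul, eval_sub, eval_C, eval_one, eval_X]
        rw [eval_mul] at h2
        rw [h2]; ring
      rw [h3]
      intro h4
      rcases ht0.eq_or_lt with h5 | h5
      · rw [← h5] at h4; norm_num at h4
      · nlinarith
    have hfb : IsCoprime b f := by
      have h1 : f = (C (1 - t) + C t * X) + b * (-(C (1 - t) * C 2 * v)) := by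
        rw [hf]; ring
      rw [h1]
      refine IsCoprime.add_mul_left_right ?_ _
      rcases ht0.eq_or_lt with h5 | h5
      · rw [← h5]
        simpa using isCoprime_one_right
      · have h6 : (C (1 - t) + C t * X : ℝ[X]) = C t * (X - C (-(1 - t) / t)) := by
          rw [mul_sub, ← C_mul]
          have : t * (-(1 - t) / t) = -(1 - t) := by field_simp
          rw [this, C_neg]; ring
        rw [h6]
        refine IsCoprime.mul_right ?_ (cop1 _ _ ?_).symm
        · exact (isCoprime_one_left.of_isCoprime_of_dvd_left (by exact dvd_rfl)).symm.of_isCoprime_of_dvd_right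
            (isUnit_C.2 (isUnit_iff_ne_zero.2 h5.ne')).dvd
        · rcases ht1.eq_or_lt with h7 | h7
          · rw [h7]; simpa using hb0
          · apply hb
            apply div_neg_of_neg_of_pos _ h5
            linarith
    have hfμ : IsCoprime μ f := by
      rw [hab]; exact hfa.mul_left hfb
    obtain ⟨x, y, hxy⟩ := hfμ
    have h1 : aeval g y * aeval g f = 1 := by
      have := congrArg (aeval g) hxy
      rw [map_add, map_mul, map_mul, map_one, hμd, minpoly.aeval, mul_zero, zero_add] at this
      exact this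
    have h2 : aeval g f * aeval g y = 1 := by
      rw [← map_mul, mul_comm, map_mul]; exact h1
    have h3 : (1 - t) • (1 - (2 : ℝ) • aeval g (v * b)) + t • g = aeval g f := by
      rw [hf, map_add, map_mul (aeval g) (C (1 - t)), map_sub (aeval g) (1 : ℝ[X]) (C 2 * (v * b)), map_one,
        map_mul (aeval g) (C 2), map_mul (aeval g) (C t), aeval_C, aeval_C, aeval_C, aeval_X,
        Algebra.algebraMap_eq_smul_one, Algebra.algebraMap_eq_smul_one,
        Algebra.algebraMap_eq_smul_one, smul_mul_assoc, smul_mul_assoc, smul_mul_assoc, one_mul,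
        one_mul, one_mul]
    rw [h3]
    exact ⟨⟨aeval g f, aeval g y, h2, h1⟩, rfl⟩

end Pool.Agent.Q84.QR.TaskSplit
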